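import Mathlib
import Pool.Agent.Q194.JBStar

set_option autoImplicit false

/-! Joint J-strict continuity, on bounded sets, of the Jordan product on the multipliers of a
JB*-algebra. -/

namespace Pool.Agent.Results.MP_2cba5e_an.JointStrict

open Filter Topology Pool.Agent.Q194.JB

variable {A B : Type*} [NormedAddCommGroup A] [NormedSpace ℂ A] [NormedAddCommGroup B]
  [NormedSpace ℂ B]

/-- `x : B` is a multiplier of `A`, where `A` is seen in `B` through `ι`: `x ∘ ι(A) ⊆ ι(A)`. -/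
def IsMult (JB : JBStar B) (ι : A → B) (x : B) : Prop :=
  ∀ a : A, ∃ b : A, JB.mul x (ι a) = ι b

/-- J-strict convergence of `x i` to `x₀` along the filter `l`: `‖a ∘ (x i - x₀)‖ → 0` for all
`a` in `A`. -/
def JLim (JB : JBStar B) (ι : A → B) {I : Type*} (l : Filter I) (x : I → B) (x₀ : B) : Prop :=
  ∀ a : A, Tendsto (fun i => ‖JB.mul (ι a) (x i - x₀)‖) l (𝓝 0)

lemma tend_mul (JB : JBStar B) {I : Type*} (l : Filter I) (z : B) (f : I → B)
    (hf : Tendsto (fun i => ‖f i‖) l (𝓝 0)) : Tendsto (fun i => ‖JB.mul z (f i)‖) l (𝓝 0) := by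
  refine squeeze_zero (fun i => norm_nonneg _) (fun i => JB.norm_mul_le _ _) ?_
  simpa using hf.const_mul ‖z‖

lemma tend_bmul (JB : JBStar B) {I : Type*} (l : Filter I) (z f : I → B) (R : ℝ)
    (hz : ∀ i, ‖z i‖ ≤ R)
    (hf : Tendsto (fun i => ‖f i‖) l (𝓝 0)) :
    Tendsto (fun i => ‖JB.mul (z i) (f i)‖) l (𝓝 0) := by
  refine squeeze_zero (fun i => norm_nonneg _) (fun i => (JB.norm_mul_le _ _).trans
    (mul_le_mul_of_nonneg_right (hz i) (norm_nonneg _))) ?_
  simpa using hf.const_mul R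

omit [NormedSpace ℂ B] in
lemma tend_add {I : Type*} (l : Filter I) (f g : I → B)
    (hf : Tendsto (fun i => ‖f i‖) l (𝓝 0)) (hg : Tendsto (fun i => ‖g i‖) l (𝓝 0)) :
    Tendsto (fun i => ‖f i + g i‖) l (𝓝 0) := by
  refine squeeze_zero (fun i => norm_nonneg _) (fun i => norm_add_le _ _) ?_
  simpa using hf.add hg

omit [NormedSpace ℂ B] in
lemma tend_sub {I : Type*} (l : Filter I) (f g : I → B)
    (hf : Tendsto (fun i => ‖f i‖) l (𝓝 0)) (hg : Tendsto (fun i => ‖g i‖) l (𝓝 0)) :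
    Tendsto (fun i => ‖f i - g i‖) l (𝓝 0) := by
  refine squeeze_zero (fun i => norm_nonneg _) (fun i => norm_sub_le _ _) ?_
  simpa using hf.add hg

/-- The main estimate: `x i` multipliers, bounded, J-strictly convergent to the multiplier `x₀`,
`z i` bounded and J-strictly null; then `x i ∘ z i` is J-strictly null. -/
lemma null [CompleteSpace A] (JA : JBStar A) (JB : JBStar B) (ι : A →ₗᵢ[ℂ] B)
    (hmul : ∀ a b, ι (JA.mul a b) = JB.mul (ι a) (ι b)) {I : Type*} (l : Filter I)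
    (x z : I → B) (x₀ : B) (R S : ℝ) (hx₀ : IsMult JB ι x₀)
    (hR : ∀ i, ‖x i‖ ≤ R) (hS : ∀ i, ‖z i‖ ≤ S) (hxl : JLim JB ι l x x₀) (hzl : JLim JB ι l z 0) :
    ∀ a : A, Tendsto (fun i => ‖JB.mul (ι a) (JB.mul (x i) (z i))‖) l (𝓝 0) := by
  have hz : ∀ a : A, Tendsto (fun i => ‖JB.mul (ι a) (z i)‖) l (𝓝 0) := fun a => by
    have := hzl a
    simpa using this
  refine JA.prod_induction
    (fun a => Tendsto (fun i => ‖JB.mul (ι a) (JB.mul (x i) (z i))‖) l (𝓝 0)) ?_ ?_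
  · intro b c
    -- `(c ∘ x i) ∘ z i → 0`
    have key : ∀ c : A, Tendsto (fun i => ‖JB.mul (JB.mul (ι c) (x i)) (z i)‖) l (𝓝 0) := by
      intro c
      obtain ⟨c', hc'⟩ := hx₀ c
      rw [JB.mul_comm] at hc'
      have e : ∀ i, JB.mul (JB.mul (ι c) (x i)) (z i) =
          JB.mul (ι c') (z i) + JB.mul (z i) (JB.mul (ι c) (x i - x₀)) := by
        intro i
        rw [JB.mul_comm (z i), ← hc', map_sub, map_sub, LinearMap.sub_apply]
        abel
      simp only [e]
      exact tend_add l _ _ (hz c') (tend_bmul JB l _ _ S hS (hxl c))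
    have hbd : ∀ c : A, ∀ i, ‖JB.mul (ι c) (x i)‖ ≤ ‖c‖ * R := fun c i => by
      refine (JB.norm_mul_le _ _).trans ?_
      rw [ι.norm_map]
      exact mul_le_mul_of_nonneg_left (hR i) (norm_nonneg _)
    have e : ∀ i, JB.mul (ι (JA.mul b c)) (JB.mul (x i) (z i)) =
        JB.mul (x i) (JB.mul (ι (JA.mul b c)) (z i))
          + (JB.mul (ι b) (JB.mul (JB.mul (ι c) (x i)) (z i))
              - JB.mul (JB.mul (ι c) (x i)) (JB.mul (ι b) (z i)))
          + (JB.mul (ι c) (JB.mul (JB.mul (ι b) (x i)) (z i))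
              - JB.mul (JB.mul (ι b) (x i)) (JB.mul (ι c) (z i))) := by
      intro i
      have := JB.strict_formula (x i) (ι b) (ι c) (z i)
      rw [← hmul, JB.mul_comm (x i) (ι b)] at this
      exact this
    simp only [e]
    refine tend_add l _ _ (tend_add l _ _ ?_ ?_) ?_
    · exact tend_bmul JB l _ _ R hR (hz _)
    · exact tend_sub l _ _ (tend_mul JB l _ _ (key c)) (tend_bmul JB l _ _ _ (hbd c) (hz b))
    · exact tend_sub l _ _ (tend_mul JB l _ _ (key b)) (tend_bmul JB l _ _ _ (hbd b) (hz c))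
  · intro a₁ a₂ h1 h2
    simp only [map_add, LinearMap.add_apply]
    exact tend_add l _ _ h1 h2

/-- **Joint J-strict continuity on bounded sets.** Let `A`, `B` be JB*-algebras and `ι : A → B` an
isometric Jordan *-homomorphism (for instance the inclusion of `A` in its bidual), and let
`M = {x : B | x ∘ A ⊆ A}` be the algebra of multipliers of `A` in `B`. If `x i → x₀` and
`y k → y₀` are bounded nets (filters) in `M` converging J-strictly, then
`x i ∘ y k → x₀ ∘ y₀` J-strictly along the product. -/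
theorem result [CompleteSpace A] [CompleteSpace B] (JA : JBStar A) (JB : JBStar B)
    (ι : A →ₗᵢ[ℂ] B) (hmul : ∀ a b, ι (JA.mul a b) = JB.mul (ι a) (ι b))
    (_hst : ∀ a, ι (JA.st a) = JB.st (ι a)) {I K : Type*} (l : Filter I) (m : Filter K)
    (x : I → B) (y : K → B) (x₀ y₀ : B) (_hx : ∀ i, IsMult JB ι (x i))
    (_hy : ∀ k, IsMult JB ι (y k)) (hx₀ : IsMult JB ι x₀) (hy₀ : IsMult JB ι y₀)
    (hbx : ∃ R : ℝ, ∀ i, ‖x i‖ ≤ R) (hby : ∃ R : ℝ, ∀ k, ‖y k‖ ≤ R)
    (hxl : JLim JB ι l x x₀) (hyl : JLim JB ι m y y₀) :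
    JLim JB ι (l ×ˢ m) (fun p => JB.mul (x p.1) (y p.2)) (JB.mul x₀ y₀) := by
  obtain ⟨R, hR⟩ := hbx
  obtain ⟨S, hS⟩ := hby
  intro a
  have e : ∀ p : I × K, JB.mul (ι a) (JB.mul (x p.1) (y p.2) - JB.mul x₀ y₀) =
      JB.mul (ι a) (JB.mul (x p.1) (y p.2 - y₀)) + JB.mul (ι a) (JB.mul y₀ (x p.1 - x₀)) := by
    intro p
    rw [JB.mul_comm y₀]
    simp only [map_sub, LinearMap.sub_apply]
    abel
  simp only [e]
  refine tend_add _ _ _ ?_ ?_
  · refine null JA JB ι hmul (l ×ˢ m) (fun p => x p.1) (fun p => y p.2 - y₀) x₀ R (S + ‖y₀‖) hx₀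
      (fun p => hR p.1) (fun p => (norm_sub_le _ _).trans (add_le_add (hS _) le_rfl)) ?_ ?_ a
    · intro c
      exact (hxl c).comp tendsto_fst
    · intro c
      simp only [sub_zero]
      exact (hyl c).comp tendsto_snd
  · refine null JA JB ι hmul (l ×ˢ m) (fun _ => y₀) (fun p => x p.1 - x₀) y₀ ‖y₀‖ (R + ‖x₀‖) hy₀
      (fun _ => le_rfl) (fun p => (norm_sub_le _ _).trans (add_le_add (hR _) le_rfl)) ?_ ?_ a
    · intro c
      simp only [sub_self, map_zero, norm_zero]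
      exact tendsto_const_nhds
    · intro c
      simp only [sub_zero]
      exact (hxl c).comp tendsto_fst

end Pool.Agent.Results.MP_2cba5e_an.JointStrict
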